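import Mathlib
import Pool.Agent.H5.FM.Prof

set_option autoImplicit false
open Finset

/-! # Four-profile polygons are good polyominoes -/

namespace Pool.Agent.H66.FM

open Pool.Agent.H75.Perc (dir dir_cases)
open Pool.Agent.Q1.M4 (Cell Good Adj4 Conn4)
open Pool.Agent.H5.FM (Prof)

/-- one step inside `S` -/
def St (S : Set Cell) (a b : Cell) : Prop := Adj4 a b ∧ b ∈ S

lemma adj4_symm {a b : Cell} (h : Adj4 a b) : Adj4 b a := by
  obtain ⟨k, rfl⟩ := h
  refine ⟨k + 2, ?_⟩
  rcases dir_cases k with ⟨h, e⟩ | ⟨h, e⟩ | ⟨h, e⟩ | ⟨h, e⟩ <;>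
  rcases dir_cases (k + 2) with ⟨h', e'⟩ | ⟨h', e'⟩ | ⟨h', e'⟩ | ⟨h', e'⟩ <;>
  first
  | (exfalso; omega)
  | (rw [e, e']; ext <;> simp)

lemma adj4_right (i j : ℤ) : Adj4 ((i, j) : Cell) (i + 1, j) := by
  refine ⟨0, ?_⟩
  rcases dir_cases 0 with ⟨h, e⟩ | ⟨h, e⟩ | ⟨h, e⟩ | ⟨h, e⟩ <;>
  first
  | (exfalso; omega)
  | (rw [e]; ext <;> simp)

lemma adj4_up (i j : ℤ) : Adj4 ((i, j) : Cell) (i, j + 1) := by
  refine ⟨1, ?_⟩
  rcases dir_cases 1 with ⟨h, e⟩ | ⟨h, e⟩ | ⟨h, e⟩ | ⟨h, e⟩ <;>
  first
  | (exfalso; omega)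
  | (rw [e]; ext <;> simp)

/-- the path relation -/
def Pa (S : Set Cell) (a b : Cell) : Prop := Relation.ReflTransGen (St S) a b

lemma Pa.symm {S : Set Cell} {a b : Cell} (ha : a ∈ S) (h : Pa S a b) : Pa S b a := by
  have key : b ∈ S ∧ Pa S b a := by
    induction h with
    | refl => exact ⟨ha, Relation.ReflTransGen.refl⟩
    | tail _ h2 ih => exact ⟨h2.2, Relation.ReflTransGen.head ⟨adj4_symm h2.1, ih.1⟩ ih.2⟩
  exact key.2

lemma Pa.trans {S : Set Cell} {a b c : Cell} (h : Pa S a b) (h' : Pa S b c) : Pa S a c :=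
  Relation.ReflTransGen.trans h h'

lemma row_nat {S : Set Cell} (i j : ℤ) (n : ℕ) (h : ∀ k, i ≤ k → k ≤ i + n → (k, j) ∈ S) :
    Pa S (i, j) (i + n, j) := by
  induction n with
  | zero =>
      have e : i + ((0 : ℕ) : ℤ) = i := by simp
      rw [e]
      exact Relation.ReflTransGen.refl
  | succ n ih =>
      have h1 := ih (fun k h1 h2 => h k h1 (by push_cast; omega))
      refine Relation.ReflTransGen.tail h1 ⟨?_, ?_⟩
      · have := adj4_right (i + n) j
        have e : i + ((n + 1 : ℕ) : ℤ) = i + n + 1 := by push_cast; ring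
        rw [e]; exact this
      · exact h _ (by push_cast; omega) le_rfl

lemma col_nat {S : Set Cell} (i j : ℤ) (n : ℕ) (h : ∀ k, j ≤ k → k ≤ j + n → (i, k) ∈ S) :
    Pa S (i, j) (i, j + n) := by
  induction n with
  | zero =>
      have e : j + ((0 : ℕ) : ℤ) = j := by simp
      rw [e]
      exact Relation.ReflTransGen.refl
  | succ n ih =>
      have h1 := ih (fun k h1 h2 => h k h1 (by push_cast; omega))
      refine Relation.ReflTransGen.tail h1 ⟨?_, ?_⟩
      · have := adj4_up i (j + n)
        have e : j + ((n + 1 : ℕ) : ℤ) = j + n + 1 := by push_cast; ring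
        rw [e]; exact this
      · exact h _ (by push_cast; omega) le_rfl

lemma row {S : Set Cell} {i i' j : ℤ} (hi : i ≤ i') (h : ∀ k, i ≤ k → k ≤ i' → (k, j) ∈ S) :
    Pa S (i, j) (i', j) := by
  obtain ⟨n, hn⟩ := Int.eq_ofNat_of_zero_le (sub_nonneg.2 hi)
  have e : i' = i + n := by omega
  subst e
  exact row_nat i j n h

lemma row' {S : Set Cell} {i i' j : ℤ} (hi : i ≤ i') (h : ∀ k, i ≤ k → k ≤ i' → (k, j) ∈ S) :
    Pa S (i', j) (i, j) := (row hi h).symm (h i le_rfl hi)

lemma col {S : Set Cell} {i j j' : ℤ} (hj : j ≤ j') (h : ∀ k, j ≤ k → k ≤ j' → (i, k) ∈ S) :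
    Pa S (i, j) (i, j') := by
  obtain ⟨n, hn⟩ := Int.eq_ofNat_of_zero_le (sub_nonneg.2 hj)
  have e : j' = j + n := by omega
  subst e
  exact col_nat i j n h

lemma col' {S : Set Cell} {i j j' : ℤ} (hj : j ≤ j') (h : ∀ k, j ≤ k → k ≤ j' → (i, k) ∈ S) :
    Pa S (i, j') (i, j) := (col hj h).symm (h j le_rfl hj)

variable (p : Prof)

lemma in_core {i j : ℤ} (h1 : p.a ≤ i) (h2 : i < p.b) : p.In (i, j) ↔ p.lo i ≤ j ∧ j < p.up i := by
  unfold Prof.In
  constructor
  · rintro (h | h | h)
    · exact h.2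
    · have := h.1.1
      simp only at this
      omega
    · have := h.1.1
      simp only at this
      omega
  · intro h
    exact Or.inl ⟨⟨h1, h2⟩, h⟩

lemma in_right {i j : ℤ} (h1 : p.b ≤ i) : p.In (i, j) ↔ i < p.rt j ∧ p.r1 ≤ j ∧ j < p.r2 := by
  have hab := p.hab
  unfold Prof.In
  constructor
  · rintro (h | h | h)
    · have := h.1.2
      simp only at this
      omega
    · exact ⟨h.1.2, h.2⟩
    · have := h.1.1
      simp only at this
      omega
  · intro h
    exact Or.inr (Or.inl ⟨⟨h1, h.1⟩, h.2⟩)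

lemma in_left {i j : ℤ} (h1 : i < p.a) : p.In (i, j) ↔ p.lt j ≤ i ∧ p.l1 ≤ j ∧ j < p.l2 := by
  have hab := p.hab
  unfold Prof.In
  constructor
  · rintro (h | h | h)
    · have := h.1.1
      simp only at this
      omega
    · have := h.1.1
      simp only at this
      omega
    · exact ⟨h.1.2, h.2⟩
  · intro h
    exact Or.inr (Or.inr ⟨⟨h1, h.1⟩, h.2⟩)

/-! ### The set is connected -/

lemma core_path (i : ℤ) (h1 : p.a ≤ i) (h2 : i < p.b) {j j' : ℤ} (hj : p.In (i, j))
    (hj' : p.In (i, j')) : Pa {c | p.In c} (i, j) (i, j') := by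
  rw [in_core p h1 h2] at hj hj'
  rcases le_total j j' with h | h
  · exact col h (fun k h3 h4 => (in_core p h1 h2).2 ⟨by omega, by omega⟩)
  · exact col' h (fun k h3 h4 => (in_core p h1 h2).2 ⟨by omega, by omega⟩)

/-- every core cell is joined with the lower left cell of the core -/
lemma core_conn (n : ℕ) : ∀ i, i = p.a + n → i < p.b → ∀ j, p.In (i, j) →
    Pa {c | p.In c} (p.a, p.lo p.a) (i, j) := by
  induction n with
  | zero =>
      intro i hi hib j hj
      have e : i = p.a := by simpa using hi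
      subst e
      refine core_path p p.a le_rfl p.hab ?_ hj
      exact (in_core p le_rfl p.hab).2 ⟨le_rfl, p.hlu _ le_rfl p.hab⟩
  | succ n ih =>
      intro i hi hib j hj
      have e : i = (i - 1) + 1 := by omega
      have hi0 : p.a ≤ i - 1 := by push_cast at hi; omega
      have h1 := p.hov1 (i - 1) hi0 (by omega)
      have h2 := p.hov2 (i - 1) hi0 (by omega)
      have h3 := p.hlu (i - 1) hi0 (by omega)
      have h4 := p.hlu i (by omega) hib
      rw [← e] at h1 h2
      set m := max (p.lo (i - 1)) (p.lo i) with hm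
      have hm1 : p.lo (i - 1) ≤ m := le_max_left _ _
      have hm2 : p.lo i ≤ m := le_max_right _ _
      have hm3 : m < p.up (i - 1) := max_lt h3 h2
      have hm4 : m < p.up i := max_lt h1 h4
      have k1 : p.In (i - 1, m) := (in_core p hi0 (by omega)).2 ⟨hm1, hm3⟩
      have k2 : p.In (i, m) := (in_core p (by omega) hib).2 ⟨hm2, hm4⟩
      have g1 := ih (i - 1) (by push_cast at hi; omega) (by omega) m k1
      have g2 : Pa {c | p.In c} (i - 1, m) (i, m) := by
        refine Relation.ReflTransGen.single ⟨?_, k2⟩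
        have := adj4_right (i - 1) m
        rwa [← e] at this
      exact (g1.trans g2).trans (core_path p i (by omega) hib k2 hj)

lemma conn_from (c : Cell) (hc : p.In c) : Pa {c | p.In c} (p.a, p.lo p.a) c := by
  have hab := p.hab
  obtain ⟨i, j⟩ := c
  rcases lt_or_ge i p.a with h1 | h1
  · obtain ⟨h2, h3, h4⟩ := (in_left p h1).1 hc
    have k1 : p.In (p.a, j) := (in_core p le_rfl hab).2 ⟨h3, h4⟩
    refine (core_conn p 0 p.a (by simp) hab j k1).trans (row' (by omega) (fun k h5 h6 => ?_))
    rcases eq_or_lt_of_le h6 with h7 | h7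
    · rw [h7]; exact k1
    · exact (in_left p h7).2 ⟨by omega, h3, h4⟩
  · rcases lt_or_ge i p.b with h2 | h2
    · exact core_conn p (i - p.a).toNat i (by omega) h2 j hc
    · obtain ⟨h3, h4, h5⟩ := (in_right p h2).1 hc
      have k1 : p.In (p.b - 1, j) := (in_core p (by omega) (by omega)).2 ⟨h4, h5⟩
      refine (core_conn p (p.b - 1 - p.a).toNat (p.b - 1) (by omega) (by omega) j k1).trans
        (row (by omega) (fun k h6 h7 => ?_))
      rcases lt_or_ge k p.b with h8 | h8
      · have e : k = p.b - 1 := by omega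
        rw [e]; exact k1
      · exact (in_right p h8).2 ⟨by omega, h4, h5⟩

/-! ### The complement is connected -/

lemma compl_conn {K : ℤ} (hK0 : 0 ≤ K) (hK : ∀ c : Cell, p.In c → |c.1| < K ∧ |c.2| < K)
    (c : Cell) (hc : ¬ p.In c) : Pa {c | ¬ p.In c} c (K, K) := by
  have hab := p.hab
  have far : ∀ i j : ℤ, (K ≤ |i| ∨ K ≤ |j|) → ((i, j) : Cell) ∈ {c : Cell | ¬ p.In c} := by
    intro i j h h'
    have := hK _ h'
    simp only at this
    omega
  obtain ⟨i, j⟩ := c
  set M : ℤ := K + |i| + |j| with hM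
  have b1 := abs_nonneg i
  have b2 := abs_nonneg j
  have b3 := le_abs_self i
  have b4 := le_abs_self j
  have b5 := neg_abs_le i
  have b6 := neg_abs_le j
  -- the fixed final pieces
  have fin1 : Pa {c : Cell | ¬ p.In c} (K, M) (K, K) := by
    refine col' (by omega) (fun k h1 h2 => far _ _ (Or.inl ?_))
    rw [abs_of_nonneg hK0]
  have fin2 : ∀ s : ℤ, Pa {c : Cell | ¬ p.In c} (s, M) (K, K) := by
    intro s
    rcases le_total s K with h | h
    · refine (row h (fun k h1 h2 => far _ _ (Or.inr ?_))).trans fin1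
      rw [abs_of_nonneg (by omega)]; omega
    · refine (row' h (fun k h1 h2 => far _ _ (Or.inr ?_))).trans fin1
      rw [abs_of_nonneg (by omega)]; omega
  have finR : Pa {c : Cell | ¬ p.In c} (M, j) (K, K) := by
    refine (col (by omega) (fun k h1 h2 => far _ _ (Or.inl ?_))).trans (fin2 M)
    rw [abs_of_nonneg (by omega)]; omega
  have finL : Pa {c : Cell | ¬ p.In c} (-M, j) (K, K) := by
    refine (col (by omega) (fun k h1 h2 => far _ _ (Or.inl ?_))).trans (fin2 (-M))
    rw [abs_neg, abs_of_nonneg (by omega)]; omega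
  have finD : Pa {c : Cell | ¬ p.In c} (i, -M) (K, K) := by
    have g1 : Pa {c : Cell | ¬ p.In c} (i, -M) (M, -M) := by
      refine row (by omega) (fun k h1 h2 => far _ _ (Or.inr ?_))
      rw [abs_neg, abs_of_nonneg (by omega)]; omega
    have g2 : Pa {c : Cell | ¬ p.In c} (M, -M) (M, M) := by
      refine col (by omega) (fun k h1 h2 => far _ _ (Or.inl ?_))
      rw [abs_of_nonneg (by omega)]; omega
    exact (g1.trans g2).trans (fin2 M)
  rcases lt_or_ge i p.a with h1 | h1
  · -- to the left
    rw [in_left p h1] at hc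
    refine (row' (i := -M) (by omega) (fun k h2 h3 => ?_)).trans finL
    show ¬ p.In (k, j)
    rw [in_left p (by omega)]
    rintro ⟨h4, h5, h6⟩
    exact hc ⟨by omega, h5, h6⟩
  · rcases lt_or_ge i p.b with h2 | h2
    · rw [in_core p h1 h2] at hc
      rcases lt_or_ge j (p.lo i) with h3 | h3
      · refine (col' (j := -M) (by omega) (fun k h4 h5 => ?_)).trans finD
        show ¬ p.In (i, k)
        rw [in_core p h1 h2]
        rintro ⟨h6, h7⟩
        omega
      · have h3' : p.up i ≤ j := by
          by_contra h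
          exact hc ⟨h3, by omega⟩
        refine (col (j' := M) (by omega) (fun k h4 h5 => ?_)).trans (fin2 i)
        show ¬ p.In (i, k)
        rw [in_core p h1 h2]
        rintro ⟨h6, h7⟩
        omega
    · rw [in_right p h2] at hc
      refine (row (i' := M) (by omega) (fun k h3 h4 => ?_)).trans finR
      show ¬ p.In (k, j)
      rw [in_right p (by omega)]
      rintro ⟨h5, h6, h7⟩
      exact hc ⟨by omega, h6, h7⟩

/-! ### No diagonal pairs -/

lemma no_diag1 (i j : ℤ) (h1 : p.In (i, j)) (h2 : p.In (i + 1, j + 1)) :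
    p.In (i + 1, j) ∨ p.In (i, j + 1) := by
  have hab := p.hab
  rcases lt_trichotomy (i + 1) p.a with h | h | h
  · rw [in_left p (by omega)] at h1 h2
    left
    rw [in_left p (by omega)]
    exact ⟨by omega, h1.2⟩
  · rw [in_left p (by omega)] at h1
    left
    rw [h, in_core p le_rfl hab]
    exact h1.2
  · rcases lt_trichotomy (i + 1) p.b with h' | h' | h'
    · have h3 := p.hov2 i (by omega) h'
      rw [in_core p (by omega) (by omega)] at h1 h2
      by_contra hcon
      rw [not_or, in_core p (by omega) (by omega), in_core p (by omega) (by omega)] at hcon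
      obtain ⟨h4, h5⟩ := hcon
      have h6 : p.lo (i + 1) = j + 1 := by
        by_contra h7
        exact h4 ⟨by omega, by omega⟩
      have h7 : p.up i = j + 1 := by
        by_contra h8
        exact h5 ⟨by omega, by omega⟩
      omega
    · rw [in_right p (by omega)] at h2
      right
      have e : i = p.b - 1 := by omega
      rw [e, in_core p (by omega) (by omega)]
      exact h2.2
    · rw [in_right p (by omega)] at h1 h2
      right
      rw [in_right p (by omega)]
      exact ⟨by omega, h2.2⟩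

lemma no_diag2 (i j : ℤ) (h1 : p.In (i + 1, j)) (h2 : p.In (i, j + 1)) :
    p.In (i, j) ∨ p.In (i + 1, j + 1) := by
  have hab := p.hab
  rcases lt_trichotomy (i + 1) p.a with h | h | h
  · rw [in_left p (by omega)] at h1 h2
    right
    rw [in_left p (by omega)]
    exact ⟨by omega, h2.2⟩
  · rw [in_left p (by omega)] at h2
    right
    rw [h, in_core p le_rfl hab]
    exact h2.2
  · rcases lt_trichotomy (i + 1) p.b with h' | h' | h'
    · have h3 := p.hov1 i (by omega) h'
      rw [in_core p (by omega) (by omega)] at h1 h2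
      by_contra hcon
      rw [not_or, in_core p (by omega) (by omega), in_core p (by omega) (by omega)] at hcon
      obtain ⟨h4, h5⟩ := hcon
      have h6 : p.lo i = j + 1 := by
        by_contra h7
        exact h4 ⟨by omega, by omega⟩
      have h7 : p.up (i + 1) = j + 1 := by
        by_contra h8
        exact h5 ⟨by omega, by omega⟩
      omega
    · rw [in_right p (by omega)] at h1
      left
      have e : i = p.b - 1 := by omega
      rw [e, in_core p (by omega) (by omega)]
      exact h1.2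
    · rw [in_right p (by omega)] at h1 h2
      left
      rw [in_right p (by omega)]
      exact ⟨by omega, h1.2⟩

lemma coe_Q : ((p.Q : Finset Cell) : Set Cell) = {c | p.In c} := by
  ext c
  simp only [Finset.mem_coe, p.mem_Q, Set.mem_ofPred_eq]

lemma coe_Qc : ((p.Q : Finset Cell) : Set Cell)ᶜ = {c | ¬ p.In c} := by
  rw [coe_Q]
  rfl

end Pool.Agent.H66.FM

namespace Pool.Agent.H5.FM

open Pool.Agent.Q1.M4 (Cell Good Adj4 Conn4)
open Pool.Agent.H66.FM

theorem Prof.good (p : Prof) : Good p.Q where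
  ne := ⟨(p.a, p.lo p.a), p.mem_Q.2 ((in_core p le_rfl p.hab).2 ⟨le_rfl, p.hlu _ le_rfl p.hab⟩)⟩
  conn := by
    rw [coe_Q]
    intro c hc d hd
    have h0 : ((p.a, p.lo p.a) : Cell) ∈ {c : Cell | p.In c} :=
      (in_core p le_rfl p.hab).2 ⟨le_rfl, p.hlu _ le_rfl p.hab⟩
    exact ((conn_from p c hc).symm h0).trans (conn_from p d hd)
  conn_compl := by
    rw [coe_Qc]
    obtain ⟨K, hK0, hK⟩ : ∃ K : ℤ, 0 ≤ K ∧ ∀ c : Cell, p.In c → |c.1| < K ∧ |c.2| < K := by
      refine ⟨∑ c ∈ p.Q, (|c.1| + |c.2| + 1), sum_nonneg (fun c _ => by positivity), ?_⟩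
      intro c hc
      have h1 := single_le_sum (f := fun c : Cell => |c.1| + |c.2| + 1) (s := p.Q)
        (fun c _ => by positivity) (p.mem_Q.2 hc)
      have h2 := abs_nonneg c.1
      have h3 := abs_nonneg c.2
      constructor <;> omega
    intro c hc d hd
    exact (compl_conn p hK0 hK c hc).trans ((compl_conn p hK0 hK d hd).symm hd)
  diag1 := by
    rintro ⟨i, j⟩ h1 h2
    rw [p.mem_Q] at h1 h2
    rcases no_diag1 p i j h1 (by simpa using h2) with h | h
    · left; rw [p.mem_Q]; simpa using h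
    · right; rw [p.mem_Q]; simpa using h
  diag2 := by
    rintro ⟨i, j⟩ h1 h2
    rw [p.mem_Q] at h1 h2
    rcases no_diag2 p i j (by simpa using h1) (by simpa using h2) with h | h
    · left; rw [p.mem_Q]; exact h
    · right; rw [p.mem_Q]; simpa using h

end Pool.Agent.H5.FM
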