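import Mathlib
import Pool.Agent.H5.FM.Apx
import Pool.Agent.H79.FM.Inc3
import Pool.Agent.H21.FM.Final2
import Pool.Agent.H13.Q1.FourH

set_option autoImplicit false
open Set Filter Topology

/-! # Cardy's formula in convex domains: the final assembly

From the holomorphy of the limits on the shapes of a class `Cl` (`Hol3`), the approximating shapes
(`ApxU`, `ApxL`) and the sandwich (`up_lim`, `lo_lim`). -/

namespace Pool.Agent.H66.FM

open Pool.Agent.H5.FM (UpG LoG ApxU ApxL apxU_convex apxL_convex)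
open Pool.Agent.H57.FM (PC)
open Pool.Agent.H79.FM (up_lim lo_lim)
open Pool.Agent.H21.FM
open Pool.Agent.H69.Car (IsHalf HC HO)
open Pool.Agent.H19.RH (Cht lam)
open Pool.Agent.H19.Rado (cr)
open Pool.Agent.H13.Q1.Four (cardy cardy_cont cardy_symm)
open Pool.Agent.H14.FM (ic)

variable {Cl : Shape → Prop} {z1 : ℂ} {D A B : Set ℂ}

/-- one choice of the marks: upper bound -/
theorem up_of (hHol : ∀ S, Cl S → Hol3 S) (hb : Bornology.IsBounded D) {m : ℝ}
    (hm : m ∈ Ioo (0:ℝ) 1) (hE : ApxU Cl z1 D A B (1 - m)) {ε : ℝ} (hε : 0 < ε) :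
    ∀ᶠ δ in 𝓝[>] (0 : ℝ), PC D A B δ ≤ cardy m + ε := by
  obtain ⟨S, e, ψ, h1, h4⟩ := hE
  have hc : ContinuousAt cardy (1 - m) :=
    cardy_cont.continuousAt (Icc_mem_nhds (by linarith [hm.2]) (by linarith [hm.1]))
  have h5 : ∀ᶠ n in atTop, cardy (1 - m) - ε / 2 <
      cardy (lam (S n).P ic ic (S n).m2 (S n).m3 (S n).m4 (ψ n)) :=
    (hc.tendsto.comp h4).eventually (lt_mem_nhds (by linarith))
  obtain ⟨n, hn⟩ := h5.exists
  obtain ⟨g1, g2, ρ, N2, N4, hU'⟩ := h1 n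
  have h6 := up_lim hb hU' (cardyShape (S n) g2 (hHol _ g1)) (show 0 < ε / 2 by linarith)
  rw [cardy_symm ⟨hm.1.le, hm.2.le⟩] at hn
  filter_upwards [h6] with δ hδ
  linarith

/-- one choice of the marks: lower bound -/
theorem lo_of (hHol : ∀ S, Cl S → Hol3 S) (hb : Bornology.IsBounded D) {m : ℝ}
    (hm : m ∈ Ioo (0:ℝ) 1) (hE : ApxL Cl z1 D A B (1 - m)) {ε : ℝ} (hε : 0 < ε) :
    ∀ᶠ δ in 𝓝[>] (0 : ℝ), cardy m - ε ≤ PC D A B δ := by
  obtain ⟨S, e, ψ, h1, h4⟩ := hE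
  have hc : ContinuousAt cardy (1 - m) :=
    cardy_cont.continuousAt (Icc_mem_nhds (by linarith [hm.2]) (by linarith [hm.1]))
  have h5 : ∀ᶠ n in atTop, cardy (lam (S n).P ic ic (S n).m2 (S n).m3 (S n).m4 (ψ n)) <
      cardy (1 - m) + ε / 2 :=
    (hc.tendsto.comp h4).eventually (gt_mem_nhds (by linarith))
  obtain ⟨n, hn⟩ := h5.exists
  obtain ⟨g1, g2, ρ, N2, N4, hL'⟩ := h1 n
  have h6 := lo_lim hb hL' (cardyShape (S n) g2 (hHol _ g1)) (show 0 < ε / 2 by linarith)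
  rw [cardy_symm ⟨hm.1.le, hm.2.le⟩] at hn
  filter_upwards [h6] with δ hδ
  linarith

/-! ### Moving the marks -/

lemma cr_mem {x1 x2 x3 x4 : ℝ} (h12 : x1 < x2) (h23 : x2 < x3) (h34 : x3 < x4) :
    cr x1 x2 x3 x4 ∈ Ioo (0:ℝ) 1 := by
  unfold cr
  have a1 : 0 < x2 - x1 := by linarith
  have a2 : 0 < x4 - x3 := by linarith
  have a3 : 0 < x3 - x1 := by linarith
  have a4 : 0 < x4 - x2 := by linarith
  have a5 : 0 < x3 - x2 := by linarith
  have a6 : 0 < x4 - x1 := by linarith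
  refine ⟨by positivity, ?_⟩
  rw [div_lt_one (by positivity)]
  nlinarith [mul_pos a5 a6]

lemma cr_cont {x1 x2 x3 x4 : ℝ} (h12 : x1 < x2) (h23 : x2 < x3) (h34 : x3 < x4) (s1 s2 s3 s4 : ℝ) :
    Tendsto (fun η : ℝ => cr (x1 + η * s1) (x2 + η * s2) (x3 + η * s3) (x4 + η * s4)) (𝓝 0)
      (𝓝 (cr x1 x2 x3 x4)) := by
  unfold cr
  have hd : (x3 + 0 * s3 - (x1 + 0 * s1)) * (x4 + 0 * s4 - (x2 + 0 * s2)) ≠ 0 := by
    have a3 : 0 < x3 - x1 := by linarith
    have a4 : 0 < x4 - x2 := by linarith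
    have : (x3 + 0 * s3 - (x1 + 0 * s1)) * (x4 + 0 * s4 - (x2 + 0 * s2)) =
      (x3 - x1) * (x4 - x2) := by ring
    rw [this]
    positivity
  have hc : ContinuousAt (fun η : ℝ => (x2 + η * s2 - (x1 + η * s1)) *
      (x4 + η * s4 - (x3 + η * s3)) / ((x3 + η * s3 - (x1 + η * s1)) *
      (x4 + η * s4 - (x2 + η * s2)))) 0 := by
    refine ContinuousAt.div (by fun_prop) (by fun_prop) hd
  have h := hc.tendsto
  simpa using h

lemma smono4 {a b c d : ℝ} (h1 : a < b) (h2 : b < c) (h3 : c < d) :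
    StrictMono (![a, b, c, d] : Fin 4 → ℝ) := by
  rw [Fin.strictMono_iff_lt_succ]
  intro i
  fin_cases i
  · exact h1
  · exact h2
  · exact h3

/-- **Cardy's formula** for a domain with two arcs, from approximating shapes with marks near the
given ones (parameters `t'` at distance less than `η0` from `t`). -/
theorem cardy_of_apx (hHol : ∀ S, Cl S → Hol3 S) (hb : Bornology.IsBounded D) {t : Fin 4 → ℝ}
    (ht : StrictMono t) {η0 : ℝ} (hη0 : 0 < η0)
    (hup : ∀ t' : Fin 4 → ℝ, StrictMono t' → (∀ m, |t' m - t m| < η0) → t' 0 < t 0 → t 1 < t' 1 →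
      t' 2 < t 2 → t 3 < t' 3 → ApxU Cl z1 D A B (1 - cr (t' 0) (t' 1) (t' 2) (t' 3)))
    (hlo : ∀ t' : Fin 4 → ℝ, StrictMono t' → (∀ m, |t' m - t m| < η0) → t 0 < t' 0 → t' 1 < t 1 →
      t 2 < t' 2 → t' 3 < t 3 → ApxL Cl z1 D A B (1 - cr (t' 0) (t' 1) (t' 2) (t' 3))) :
    Tendsto (PC D A B) (𝓝[>] 0) (𝓝 (cardy (cr (t 0) (t 1) (t 2) (t 3)))) := by
  have t01 : t 0 < t 1 := ht (by decide)
  have t12 : t 1 < t 2 := ht (by decide)
  have t23 : t 2 < t 3 := ht (by decide)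
  have hcr := cr_mem t01 t12 t23
  have hcard : ContinuousAt cardy (cr (t 0) (t 1) (t 2) (t 3)) :=
    cardy_cont.continuousAt (Icc_mem_nhds hcr.1 hcr.2)
  rw [Metric.tendsto_nhds]
  intro ε hε
  have hup' : ∀ᶠ δ in 𝓝[>] (0 : ℝ), PC D A B δ < cardy (cr (t 0) (t 1) (t 2) (t 3)) + ε := by
    have k1 := cr_cont t01 t12 t23 (-1) 1 (-1) 1
    have k2 : ∀ᶠ η in 𝓝[>] (0 : ℝ), cardy (cr (t 0 + η * (-1)) (t 1 + η * 1) (t 2 + η * (-1))
        (t 3 + η * 1)) < cardy (cr (t 0) (t 1) (t 2) (t 3)) + ε / 2 :=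
      ((hcard.tendsto.comp k1).eventually (gt_mem_nhds (by linarith))).filter_mono
        nhdsWithin_le_nhds
    have k3 : ∀ᶠ η in 𝓝[>] (0 : ℝ), η < min η0 ((t 2 - t 1) / 2) :=
      (eventually_lt_nhds (lt_min hη0 (by linarith))).filter_mono nhdsWithin_le_nhds
    obtain ⟨η, ⟨e1, e2⟩, e3⟩ := ((k2.and k3).and self_mem_nhdsWithin).exists
    have e4 : 0 < η := e3
    have e5 : η < η0 := e2.trans_le (min_le_left _ _)
    have e6 : η < (t 2 - t 1) / 2 := e2.trans_le (min_le_right _ _)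
    have hm := cr_mem (x1 := t 0 + η * (-1)) (x2 := t 1 + η * 1) (x3 := t 2 + η * (-1))
      (x4 := t 3 + η * 1) (by linarith) (by linarith) (by linarith)
    have hE := hup ![t 0 + η * (-1), t 1 + η * 1, t 2 + η * (-1), t 3 + η * 1]
      (smono4 (by linarith) (by linarith) (by linarith))
      (by
        intro m
        match m with
        | 0 => show |t 0 + η * (-1) - t 0| < η0; rw [abs_lt]; constructor <;> linarith
        | 1 => show |t 1 + η * 1 - t 1| < η0; rw [abs_lt]; constructor <;> linarith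
        | 2 => show |t 2 + η * (-1) - t 2| < η0; rw [abs_lt]; constructor <;> linarith
        | 3 => show |t 3 + η * 1 - t 3| < η0; rw [abs_lt]; constructor <;> linarith)
      (by show t 0 + η * (-1) < t 0; linarith) (by show t 1 < t 1 + η * 1; linarith)
      (by show t 2 + η * (-1) < t 2; linarith) (by show t 3 < t 3 + η * 1; linarith)
    have k4 := up_of hHol hb hm hE (show 0 < ε / 4 by linarith)
    filter_upwards [k4] with δ hδ
    linarith
  have hlo' : ∀ᶠ δ in 𝓝[>] (0 : ℝ), cardy (cr (t 0) (t 1) (t 2) (t 3)) - ε < PC D A B δ := by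
    have k1 := cr_cont t01 t12 t23 1 (-1) 1 (-1)
    have k2 : ∀ᶠ η in 𝓝[>] (0 : ℝ), cardy (cr (t 0) (t 1) (t 2) (t 3)) - ε / 2 <
        cardy (cr (t 0 + η * 1) (t 1 + η * (-1)) (t 2 + η * 1) (t 3 + η * (-1))) :=
      ((hcard.tendsto.comp k1).eventually (lt_mem_nhds (by linarith))).filter_mono
        nhdsWithin_le_nhds
    have k3 : ∀ᶠ η in 𝓝[>] (0 : ℝ), η < min η0 (min ((t 1 - t 0) / 2) ((t 3 - t 2) / 2)) :=
      (eventually_lt_nhds (lt_min hη0 (lt_min (by linarith) (by linarith)))).filter_mono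
        nhdsWithin_le_nhds
    obtain ⟨η, ⟨e1, e2⟩, e3⟩ := ((k2.and k3).and self_mem_nhdsWithin).exists
    have e4 : 0 < η := e3
    have e0 : η < η0 := e2.trans_le (min_le_left _ _)
    have e5 : η < (t 1 - t 0) / 2 := e2.trans_le ((min_le_right _ _).trans (min_le_left _ _))
    have e6 : η < (t 3 - t 2) / 2 := e2.trans_le ((min_le_right _ _).trans (min_le_right _ _))
    have hm := cr_mem (x1 := t 0 + η * 1) (x2 := t 1 + η * (-1)) (x3 := t 2 + η * 1)
      (x4 := t 3 + η * (-1)) (by linarith) (by linarith) (by linarith)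
    have hE := hlo ![t 0 + η * 1, t 1 + η * (-1), t 2 + η * 1, t 3 + η * (-1)]
      (smono4 (by linarith) (by linarith) (by linarith))
      (by
        intro m
        match m with
        | 0 => show |t 0 + η * 1 - t 0| < η0; rw [abs_lt]; constructor <;> linarith
        | 1 => show |t 1 + η * (-1) - t 1| < η0; rw [abs_lt]; constructor <;> linarith
        | 2 => show |t 2 + η * 1 - t 2| < η0; rw [abs_lt]; constructor <;> linarith
        | 3 => show |t 3 + η * (-1) - t 3| < η0; rw [abs_lt]; constructor <;> linarith)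
      (by show t 0 < t 0 + η * 1; linarith)
      (by show t 1 + η * (-1) < t 1; linarith)
      (by show t 2 < t 2 + η * 1; linarith)
      (by show t 3 + η * (-1) < t 3; linarith)
    have k4 := lo_of hHol hb hm hE (show 0 < ε / 4 by linarith)
    filter_upwards [k4] with δ hδ
    linarith
  filter_upwards [hup', hlo'] with δ h1 h2
  rw [Real.dist_eq, abs_lt]
  constructor <;> linarith

/-- **Cardy's formula in convex domains** with four boundary points, from the holomorphy of the limits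
on all shapes. -/
theorem cardy_convex_of_hol3 (hHol : ∀ S : Shape, Hol3 S) {D : Set ℂ} (hc : Convex ℝ D)
    (ho : IsOpen D) (hb : Bornology.IsBounded D) (hne : D.Nonempty) {a b : ℂ} {φ : ℂ → ℂ}
    (hφ : IsHalf D a b φ) {t : Fin 4 → ℝ} (ht : StrictMono t) :
    Tendsto (PC D ((fun x : ℝ => φ x) '' Icc (t 0) (t 1)) ((fun x : ℝ => φ x) '' Icc (t 2) (t 3)))
      (𝓝[>] 0) (𝓝 (cardy (cr (t 0) (t 1) (t 2) (t 3)))) := by
  obtain ⟨z1, hz⟩ := hne
  exact cardy_of_apx (Cl := fun _ => True) (fun S _ => hHol S) hb ht one_pos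
    (fun t' h1 _ g0 g1 g2 g3 => apxU_convex hc ho hb hz hφ ht h1 g0 g1 g2 g3)
    (fun t' h1 _ g0 g1 g2 g3 => apxL_convex hc ho hb hz hφ ht h1 g0 g1 g2 g3)

end Pool.Agent.H66.FM
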