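import Mathlib
import Pool.Agent.H5.FM.ConvD
import Pool.Agent.H44.FM.Fin2

set_option autoImplicit false

/-! # Cardy's formula for critical bond percolation on the square lattice in all bounded convex domains

Critical bond percolation on the square lattice `δ ℤ²` (every edge open with probability `1/2`,
independently) in a bounded open convex set `D` of the plane.

The configuration `ω` gives the state of the edge from `u` to `u + (1,0)` (index `(u, true)`) and of
the edge from `u` to `u + (0,1)` (index `(u, false)`); `μ` is the law under which the edges are open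
(`ω e = true`) independently with probability `1/2`; `pos δ v = δ v` is the position of the vertex `v`;
`G D δ ω` is the graph of the open edges with both end points in `D`; `P D A B δ` is the probability
that an open path in `D` goes from a vertex at distance at most `δ` from `A` to a vertex at distance
at most `δ` from `B`. `F` is Cardy's function of the cross-ratio. `Conf D a b f` says that `f` is a
conformal map of the upper half-plane onto `D` which is continuous and injective on the closed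
half-plane, with `f 0 = a`, `f ∞ = b` and image `closure D \ {b}`. -/

namespace Pool.Agent.H66.FM.CardyAll

open MeasureTheory Filter Topology

/-- **Cardy's formula on `ℤ²` in all bounded convex domains.** For a bounded open convex set `D`,
distinct boundary points `a`, `b`, a conformal map `f` of the half-plane onto `D` with `f 0 = a`,
`f ∞ = b` (such a map exists), and `t0 < t1 < t2 < t3`, the probability that the boundary arcs
`f [t0, t1]` and `f [t2, t3]` are joined by an open path in `D` tends to Cardy's function of the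
cross-ratio as the mesh tends to `0`. -/
theorem result
    (μ : Measure ((ℤ × ℤ) × Bool → Bool))
    (hμ : μ = Measure.infinitePi (fun _ => (PMF.uniformOfFintype Bool).toMeasure))
    (pos : ℝ → ℤ × ℤ → ℂ)
    (hpos : ∀ δ v, pos δ v = (δ : ℂ) * ((v.1 : ℂ) + (v.2 : ℂ) * Complex.I))
    (G : Set ℂ → ℝ → ((ℤ × ℤ) × Bool → Bool) → SimpleGraph (ℤ × ℤ))
    (hG : ∀ D δ ω, G D δ ω = SimpleGraph.fromRel (fun u v => pos δ u ∈ D ∧ pos δ v ∈ D ∧
      ((v = (u.1 + 1, u.2) ∧ ω (u, true) = true) ∨
        (v = (u.1, u.2 + 1) ∧ ω (u, false) = true))))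
    (P : Set ℂ → Set ℂ → Set ℂ → ℝ → ℝ)
    (hP : ∀ D A B δ, P D A B δ = (μ {ω | ∃ u v : ℤ × ℤ, pos δ u ∈ D ∧ pos δ v ∈ D ∧
      (∃ a ∈ A, dist (pos δ u) a ≤ δ) ∧ (∃ b ∈ B, dist (pos δ v) b ≤ δ) ∧
      (G D δ ω).Reachable u v}).toReal)
    (F : ℝ → ℝ)
    (hF : ∀ x, F x = Real.Gamma (2 / 3) / Real.Gamma (1 / 3) ^ 2 *
      ∫ s in (0 : ℝ)..x, s ^ (-(2 / 3) : ℝ) * (1 - s) ^ (-(2 / 3) : ℝ))
    (Conf : Set ℂ → ℂ → ℂ → (ℂ → ℂ) → Prop)
    (hConf : ∀ D a b f, Conf D a b f ↔ ContinuousOn f {z | 0 ≤ z.im} ∧ Set.InjOn f {z | 0 ≤ z.im} ∧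
      DifferentiableOn ℂ f {z | 0 < z.im} ∧ f '' {z | 0 < z.im} = D ∧ f 0 = a ∧
      Tendsto f (Bornology.cobounded ℂ ⊓ 𝓟 {z | 0 ≤ z.im}) (𝓝 b) ∧
      f '' {z | 0 ≤ z.im} = closure D \ {b})
    (D : Set ℂ) (hDo : IsOpen D) (hDc : Convex ℝ D) (hDb : Bornology.IsBounded D)
    (a b : ℂ) (ha : a ∈ frontier D) (hb : b ∈ frontier D) (hab : a ≠ b) :
    (∃ f : ℂ → ℂ, Conf D a b f) ∧
    ∀ f : ℂ → ℂ, Conf D a b f → ∀ t0 t1 t2 t3 : ℝ, t0 < t1 → t1 < t2 → t2 < t3 →
      Tendsto (fun δ => P D ((fun s : ℝ => f s) '' Set.Icc t0 t1)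
          ((fun s : ℝ => f s) '' Set.Icc t2 t3) δ)
        (𝓝[>] 0) (𝓝 (F ((t1 - t0) * (t3 - t2) / ((t2 - t0) * (t3 - t1))))) :=
  Pool.Agent.H5.FMD.convex_stateD (fun _ hQ _ hD => Pool.Agent.H44.FM.Wi.hol3_hvc hQ hD)
    μ hμ pos hpos G hG P hP F hF Conf hConf D hDo hDc hDb
    (closure_nonempty_iff.1 ⟨a, frontier_subset_closure ha⟩) a b ha hb hab

end Pool.Agent.H66.FM.CardyAll
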