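import Mathlib
import Pool.Agent.H75.Perc.ArmD
import Pool.Agent.H57.FM.Cross

set_option autoImplicit false
open Set

/-! # Crossing probabilities under the infinite product measure -/

namespace Pool.Agent.H66.FM

open Pool.Agent.H57.FM (PC Cross EL mem_EL ps)
open Pool.Agent.H75.Perc (GD GD_adj phi phi_inj planeMeasure_eq Ad IsUnit4 Pr)
open Pool.Agent.H65.Perc (PConf planeMeasure)
open Pool.Agent.H63.Perc (coins tr coins_tr mem_tr)

lemma odd_EL {D : Set ℂ} (hD : Bornology.IsBounded D) {δ : ℝ} (hδ : 0 < δ) :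
    ∀ e ∈ EL D δ, (e.1 + e.2) % 2 = 1 := by
  intro e he
  obtain ⟨u, v, h1, -, -, rfl⟩ := (mem_EL hD hδ).1 he
  have h2 := Pool.Agent.H75.Perc.unit_cases h1
  simp only [Prod.fst_add, Prod.snd_add]
  omega

/-- **The crossing probability under the product measure of the plane** -/
theorem PC_plane {D A B : Set ℂ} (hD : Bornology.IsBounded D) {δ : ℝ} (hδ : 0 < δ) :
    PC D A B δ = (planeMeasure {ω | ∃ u v : ℤ × ℤ, ps δ u ∈ D ∧ (∃ a ∈ A, dist (ps δ u) a ≤ δ) ∧
      (∃ b ∈ B, dist (ps δ v) b ≤ δ) ∧ (GD (fun w => ps δ w ∈ D) ω).Reachable u v}).toReal := by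
  have h1 : {ω : PConf | ∃ u v : ℤ × ℤ, ps δ u ∈ D ∧ (∃ a ∈ A, dist (ps δ u) a ≤ δ) ∧
      (∃ b ∈ B, dist (ps δ v) b ≤ δ) ∧ (GD (fun w => ps δ w ∈ D) ω).Reachable u v} =
      {ω | Cross D A B δ (tr (EL D δ) phi ω)} := by
    ext ω
    simp only [Set.mem_ofPred_eq]
    unfold Cross
    refine exists_congr fun u => exists_congr fun v => and_congr_right fun hu =>
      and_congr_right fun _ => and_congr_right fun _ => ?_
    rw [SimpleGraph.reachable_iff_reflTransGen]
    constructor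
    · intro h
      refine Relation.ReflTransGen.mono (fun a b hab => ?_) _ _ h
      rw [GD_adj] at hab
      exact ⟨⟨hab.1, mem_tr.2 ⟨(mem_EL hD hδ).2 ⟨a, b, hab.1, hab.2.1, hab.2.2.1, rfl⟩,
        hab.2.2.2⟩⟩, hab.2.2.1⟩
    · intro h
      have key : ∀ w, Relation.ReflTransGen (fun x y => Ad (tr (EL D δ) phi ω) x y ∧ ps δ y ∈ D) u w →
          ps δ w ∈ D ∧ Relation.ReflTransGen (GD (fun w => ps δ w ∈ D) ω).Adj u w := by
        intro w hw
        induction hw with
        | refl => exact ⟨hu, Relation.ReflTransGen.refl⟩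
        | @tail x y _ hxy ih =>
          refine ⟨hxy.2, ih.2.tail ?_⟩
          rw [GD_adj]
          exact ⟨hxy.1.1, ih.1, hxy.2, (mem_tr.1 hxy.1.2).2⟩
      exact (key v h).2
  rw [h1, planeMeasure_eq, coins_tr (phi_inj (odd_EL hD hδ))]
  rfl

end Pool.Agent.H66.FM
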