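import Mathlib
import Pool.Agent.H66.FM.Final
import Pool.Agent.H66.FM.Meas

set_option autoImplicit false
open Set Filter Topology MeasureTheory

/-! # Cardy's formula in convex domains: explicit statement -/

namespace Pool.Agent.H66.FM

open Pool.Agent.H57.FM (PC ps)
open Pool.Agent.H21.FM
open Pool.Agent.H69.Car (IsHalf HC HO)
open Pool.Agent.H19.Rado (cr)
open Pool.Agent.H13.Q1.Four (cardy bet)

/-- From a limit of `PC` to the explicit statement. -/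
theorem state_of_tendsto
    (μ : Measure ((ℤ × ℤ) × Bool → Bool))
    (hμ : μ = Measure.infinitePi (fun _ => (PMF.uniformOfFintype Bool).toMeasure))
    (D : Set ℂ) (hDb : Bornology.IsBounded D) (A B : Set ℂ) (l : ℝ)
    (hlim : Tendsto (PC D A B) (𝓝[>] 0) (𝓝 (cardy l)))
    (pos : ℝ → ℤ × ℤ → ℂ) (hpos : ∀ δ v, pos δ v = δ * (v.1 + v.2 * Complex.I))
    (G : ℝ → ((ℤ × ℤ) × Bool → Bool) → SimpleGraph (ℤ × ℤ))
    (hG : ∀ δ ω, G δ ω = SimpleGraph.fromRel (fun u v => pos δ u ∈ D ∧ pos δ v ∈ D ∧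
      ((v = (u.1 + 1, u.2) ∧ ω (u, true) = true) ∨ (v = (u.1, u.2 + 1) ∧ ω (u, false) = true))))
    (p : ℝ → ℝ)
    (hp : ∀ δ, p δ = (μ {ω | ∃ u v : ℤ × ℤ, pos δ u ∈ D ∧ (∃ a ∈ A, dist (pos δ u) a ≤ δ) ∧
      (∃ b ∈ B, dist (pos δ v) b ≤ δ) ∧ (G δ ω).Reachable u v}).toReal)
    (F : ℝ → ℝ)
    (hF : ∀ x, F x = (∫ s in (0 : ℝ)..x, s ^ (-(2 / 3) : ℝ) * (1 - s) ^ (-(2 / 3) : ℝ)) /
      ∫ s in (0 : ℝ)..1, s ^ (-(2 / 3) : ℝ) * (1 - s) ^ (-(2 / 3) : ℝ)) :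
    Tendsto p (𝓝[>] 0) (𝓝 (F l)) := by
  have e1 : F l = cardy l := by
    rw [hF]
    unfold cardy bet
    norm_num
  rw [e1]
  refine hlim.congr' ?_
  filter_upwards [self_mem_nhdsWithin] with δ hδ
  have hδ' : 0 < δ := hδ
  rw [hp, PC_plane hDb hδ', hμ]
  have e2 : pos = ps := by
    funext δ v
    rw [hpos]
    rfl
  subst e2
  have e3 : ∀ ω, G δ ω = Pool.Agent.H75.Perc.GD (fun w => ps δ w ∈ D) ω := fun ω => hG δ ω
  simp only [e3]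
  rfl

/-- **Cardy's formula in convex domains**, explicit form, from `Hol3` on all shapes. -/
theorem state_convex (hHol : ∀ S : Shape, Hol3 S)
    (μ : Measure ((ℤ × ℤ) × Bool → Bool))
    (hμ : μ = Measure.infinitePi (fun _ => (PMF.uniformOfFintype Bool).toMeasure))
    (D : Set ℂ) (hDc : Convex ℝ D) (hDo : IsOpen D) (hDb : Bornology.IsBounded D)
    (hDn : D.Nonempty)
    (φ : ℂ → ℂ) (b : ℂ)
    (h1 : ContinuousOn φ {z | 0 ≤ z.im}) (h2 : DifferentiableOn ℂ φ {z | 0 < z.im})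
    (h3 : φ '' {z | 0 < z.im} = D) (h4 : Set.BijOn φ {z | 0 ≤ z.im} (closure D \ {b}))
    (h5 : Tendsto φ (Bornology.cobounded ℂ ⊓ 𝓟 {z | 0 ≤ z.im}) (𝓝 b))
    (x : Fin 4 → ℝ) (hx : StrictMono x)
    (pos : ℝ → ℤ × ℤ → ℂ) (hpos : ∀ δ v, pos δ v = δ * (v.1 + v.2 * Complex.I))
    (G : ℝ → ((ℤ × ℤ) × Bool → Bool) → SimpleGraph (ℤ × ℤ))
    (hG : ∀ δ ω, G δ ω = SimpleGraph.fromRel (fun u v => pos δ u ∈ D ∧ pos δ v ∈ D ∧
      ((v = (u.1 + 1, u.2) ∧ ω (u, true) = true) ∨ (v = (u.1, u.2 + 1) ∧ ω (u, false) = true))))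
    (p : ℝ → ℝ)
    (hp : ∀ δ, p δ = (μ {ω | ∃ u v : ℤ × ℤ, pos δ u ∈ D ∧
      (∃ s ∈ Icc (x 0) (x 1), dist (pos δ u) (φ s) ≤ δ) ∧
      (∃ s ∈ Icc (x 2) (x 3), dist (pos δ v) (φ s) ≤ δ) ∧ (G δ ω).Reachable u v}).toReal)
    (F : ℝ → ℝ)
    (hF : ∀ x, F x = (∫ s in (0 : ℝ)..x, s ^ (-(2 / 3) : ℝ) * (1 - s) ^ (-(2 / 3) : ℝ)) /
      ∫ s in (0 : ℝ)..1, s ^ (-(2 / 3) : ℝ) * (1 - s) ^ (-(2 / 3) : ℝ)) :
    Tendsto p (𝓝[>] 0) (𝓝 (F ((x 1 - x 0) * (x 3 - x 2) / ((x 2 - x 0) * (x 3 - x 1))))) := by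
  have hH : IsHalf D (φ 0) b φ :=
    { cont := h1
      inj := h4.injOn
      diff := h2
      image := h3
      zero := rfl
      lim := h5
      closure := h4.image_eq }
  refine state_of_tendsto μ hμ D hDb ((fun s : ℝ => φ s) '' Icc (x 0) (x 1))
    ((fun s : ℝ => φ s) '' Icc (x 2) (x 3)) _ (cardy_convex_of_hol3 hHol hDc hDo hDb hDn hH hx)
    pos hpos G hG p ?_ F hF
  intro δ
  rw [hp]
  simp only [Set.exists_mem_image]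

end Pool.Agent.H66.FM
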