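import Mathlib
import Pool.Agent.H66.FM.Final
import Pool.Agent.H66.FM.State
import Pool.Agent.H5.FM.Hv14

set_option autoImplicit false
open Set Filter Topology

/-! # Cardy's formula in convex domains from windows -/

namespace Pool.Agent.H66.FM

open Pool.Agent.H5.FM (HVC NoDiag noDiag_of apxU_hvc apxL_hvc)
open Pool.Agent.H57.FM (PC)
open Pool.Agent.H21.FM
open Pool.Agent.H5.FM (PA)
open Pool.Agent.H69.Car (IsHalf)
open Pool.Agent.H19.Rado (cr)
open Pool.Agent.H13.Q1.Four (cardy)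

/-- **Cardy's formula in convex domains** with four boundary points such that no arc between
consecutive points is inside an open segment of the frontier of direction `(1,1)` or `(1,-1)`, from
the holomorphy of the limits on the shapes whose rows and columns are intervals. -/
theorem cardy_of_hvc (hHol : ∀ S : Shape, HVC S.P.Q → Hol3 S) {D : Set ℂ} (hc : Convex ℝ D)
    (ho : IsOpen D) (hb : Bornology.IsBounded D) (hne : D.Nonempty) {a b : ℂ} {φ : ℂ → ℂ}
    (hφ : IsHalf D a b φ) {t : Fin 4 → ℝ} (ht : StrictMono t)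
    (na : ∀ i, NoDiag D (PA φ b t i)) :
    Tendsto (PC D ((fun x : ℝ => φ x) '' Icc (t 0) (t 1)) ((fun x : ℝ => φ x) '' Icc (t 2) (t 3)))
      (𝓝[>] 0) (𝓝 (cardy (cr (t 0) (t 1) (t 2) (t 3)))) := by
  obtain ⟨z1, hz⟩ := hne
  exact cardy_of_apx (Cl := fun S => HVC S.P.Q) hHol hb ht one_pos
    (fun t' h1 _ g0 g1 g2 g3 => apxU_hvc hc ho hb hz hφ ht h1 na g0 g1 g2 g3)
    (fun t' h1 _ g0 g1 g2 g3 => apxL_hvc hc ho hb hz hφ ht h1 na g0 g1 g2 g3)

end Pool.Agent.H66.FM
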